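import Pool.Agent.LE.StmtsQF

/-!
# Row NRB of squad LQF: norms at a good point
-/

set_option autoImplicit false
set_option linter.unusedSectionVars false

open scoped BigOperators Matrix

noncomputable section

namespace Pool.Agent.LE.QF.H81

open Pool.Agent.LE.QD Pool.Agent.LE.QF

section nrb

variable {X : Type} [Fintype X] [DecidableEq X]

theorem n2_nn (f : X → ℂ) : 0 ≤ n2 f := Finset.sum_nonneg fun _ _ => by positivity

/-- Cauchy-Schwarz -/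
theorem cs (f g : X → ℂ) : ‖∑ c, f c * g c‖ ^ 2 ≤ (∑ c, ‖f c‖ ^ 2) * ∑ c, ‖g c‖ ^ 2 := by
  have h1 : ‖∑ c, f c * g c‖ ≤ ∑ c, ‖f c‖ * ‖g c‖ := by
    refine (norm_sum_le _ _).trans (le_of_eq ?_)
    apply Finset.sum_congr rfl
    intro c _
    rw [norm_mul]
  calc ‖∑ c, f c * g c‖ ^ 2 ≤ (∑ c, ‖f c‖ * ‖g c‖) ^ 2 := by
        apply pow_le_pow_left₀ (norm_nonneg _) h1
    _ ≤ (∑ c, ‖f c‖ ^ 2) * ∑ c, ‖g c‖ ^ 2 := Finset.sum_mul_sq_le_sq_mul_sq _ _ _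

theorem n2_conj (f : X → ℂ) : n2 (fun a => (starRingEnd ℂ) (f a)) = n2 f := by
  unfold n2
  apply Finset.sum_congr rfl
  intro a _
  rw [Complex.norm_conj]

variable {G : Matrix X X ℂ}

/-- the adjoint in terms of `G` -/
theorem adj_conj (hs : ∀ a b, G a b = G b a) (v : X → ℂ) (a : X) :
    (Gᴴ *ᵥ v) a = (starRingEnd ℂ) ((G *ᵥ fun b => (starRingEnd ℂ) (v b)) a) := by
  unfold Matrix.mulVec dotProduct
  rw [map_sum]
  apply Finset.sum_congr rfl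
  intro b _
  change Gᴴ a b * v b = (starRingEnd ℂ) (G a b * (starRingEnd ℂ) (v b))
  rw [Matrix.conjTranspose_apply, hs b a, map_mul, Complex.conj_conj]
  rfl

theorem n2_adj (hs : ∀ a b, G a b = G b a) (v : X → ℂ) :
    n2 (Gᴴ *ᵥ v) = n2 (G *ᵥ fun b => (starRingEnd ℂ) (v b)) := by
  have h : (Gᴴ *ᵥ v) = fun a => (starRingEnd ℂ) ((G *ᵥ fun b => (starRingEnd ℂ) (v b)) a) := by
    funext a
    exact adj_conj hs v a
  rw [h, n2_conj]

/-- `|G^* v| ≤ |v| / κ` -/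
theorem norm_adj {κ : ℝ} (hκ : 0 < κ) (hs : ∀ a b, G a b = G b a)
    (hw : ∀ a b, (κ : ℂ) * ∑ c, G a c * (starRingEnd ℂ) (G b c) = ((G a b).im : ℂ)) (v : X → ℂ) :
    n2 (Gᴴ *ᵥ v) ≤ n2 v / κ ^ 2 := by
  obtain ⟨x, hx⟩ : ∃ x, x = Gᴴ *ᵥ v := ⟨_, rfl⟩
  have hxa : ∀ a, x a = ∑ b, (starRingEnd ℂ) (G b a) * v b := by
    intro a
    rw [hx]
    rfl
  have hxc : ∀ a, (starRingEnd ℂ) (x a) = ∑ b, G b a * (starRingEnd ℂ) (v b) := by
    intro a
    rw [hxa, map_sum]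
    apply Finset.sum_congr rfl
    intro b _
    rw [map_mul, Complex.conj_conj]
  -- `T` and `R`
  obtain ⟨T, hT⟩ : ∃ T : ℂ, T = ∑ a, ∑ b, v a * (starRingEnd ℂ) (v b) * ((G b a).im : ℂ) :=
    ⟨_, rfl⟩
  obtain ⟨R, hR⟩ : ∃ R : ℂ, R = ∑ a, ∑ b, v a * (starRingEnd ℂ) (v b) * ((G b a).re : ℂ) :=
    ⟨_, rfl⟩
  obtain ⟨S, hS⟩ : ∃ S : ℂ, S = ∑ a, v a * (starRingEnd ℂ) (x a) := ⟨_, rfl⟩
  have hST : S = R + T * Complex.I := by
    rw [hS, hR, hT, Finset.sum_mul, ← Finset.sum_add_distrib]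
    apply Finset.sum_congr rfl
    intro a _
    rw [hxc, Finset.mul_sum, Finset.sum_mul, ← Finset.sum_add_distrib]
    apply Finset.sum_congr rfl
    intro b _
    have e : G b a = ((G b a).re : ℂ) + ((G b a).im : ℂ) * Complex.I := (Complex.re_add_im _).symm
    calc v a * (G b a * (starRingEnd ℂ) (v b)) =
        v a * ((((G b a).re : ℂ) + ((G b a).im : ℂ) * Complex.I) * (starRingEnd ℂ) (v b)) := by
          rw [← e]
      _ = _ := by ring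
  have hTκ : T = ((κ * n2 x : ℝ) : ℂ) := by
    have h1 : ((n2 x : ℝ) : ℂ) = ∑ c, x c * (starRingEnd ℂ) (x c) := by
      unfold n2
      push_cast
      apply Finset.sum_congr rfl
      intro c _
      rw [Complex.mul_conj']
    rw [Complex.ofReal_mul, h1, hT, Finset.mul_sum]
    have h2 : ∀ c, (κ : ℂ) * (x c * (starRingEnd ℂ) (x c)) =
        ∑ a, ∑ b, (κ : ℂ) * (v a * (starRingEnd ℂ) (v b) *
          (G b c * (starRingEnd ℂ) (G a c))) := by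
      intro c
      rw [hxc, hxa, Finset.sum_mul_sum, Finset.mul_sum]
      apply Finset.sum_congr rfl
      intro a _
      rw [Finset.mul_sum]
      apply Finset.sum_congr rfl
      intro b _
      ring
    have h3 : ∑ c, (κ : ℂ) * (x c * (starRingEnd ℂ) (x c)) =
        ∑ a, ∑ b, ∑ c, (κ : ℂ) * (v a * (starRingEnd ℂ) (v b) *
          (G b c * (starRingEnd ℂ) (G a c))) := by
      rw [Finset.sum_congr rfl (fun c _ => h2 c), Finset.sum_comm]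
      apply Finset.sum_congr rfl
      intro a _
      rw [Finset.sum_comm]
    rw [h3]
    apply Finset.sum_congr rfl
    intro a _
    apply Finset.sum_congr rfl
    intro b _
    rw [← hw b a, Finset.mul_sum, Finset.mul_sum]
    apply Finset.sum_congr rfl
    intro c _
    ring
  have hRr : (starRingEnd ℂ) R = R := by
    have h1 : (starRingEnd ℂ) R = ∑ a, ∑ b, (starRingEnd ℂ) (v a) * v b * ((G b a).re : ℂ) := by
      rw [hR, map_sum]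
      apply Finset.sum_congr rfl
      intro a _
      rw [map_sum]
      apply Finset.sum_congr rfl
      intro b _
      rw [map_mul, map_mul, Complex.conj_conj, Complex.conj_ofReal]
    rw [h1, Finset.sum_comm, hR]
    apply Finset.sum_congr rfl
    intro b _
    apply Finset.sum_congr rfl
    intro a _
    rw [hs b a]
    ring
  have hRim : R.im = 0 := Complex.conj_eq_iff_im.1 hRr
  have hSim : S.im = κ * n2 x := by
    rw [hST, Complex.add_im, hRim, Complex.mul_I_im, hTκ, Complex.ofReal_re, zero_add]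
  have hSn : ‖S‖ ^ 2 ≤ n2 v * n2 x := by
    have h1 := cs v (fun a => (starRingEnd ℂ) (x a))
    rw [← hS] at h1
    have h2 : ∑ c, ‖(starRingEnd ℂ) (x c)‖ ^ 2 = n2 x := n2_conj x
    rw [h2] at h1
    exact h1
  have h3 : (κ * n2 x) ^ 2 ≤ n2 v * n2 x := by
    refine le_trans ?_ hSn
    rw [← hSim, ← sq_abs]
    exact pow_le_pow_left₀ (abs_nonneg _) (Complex.abs_im_le_norm S) 2
  rw [← hx, le_div_iff₀ (by positivity)]
  rcases (n2_nn x).eq_or_lt with h0 | h0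
  · rw [← h0, zero_mul]
    exact n2_nn v
  · have h4 : n2 x * (n2 x * κ ^ 2) ≤ n2 x * n2 v := by nlinarith
    exact le_of_mul_le_mul_left h4 h0

theorem norm_mv {κ : ℝ} (hκ : 0 < κ) (hs : ∀ a b, G a b = G b a)
    (hw : ∀ a b, (κ : ℂ) * ∑ c, G a c * (starRingEnd ℂ) (G b c) = ((G a b).im : ℂ)) (v : X → ℂ) :
    n2 (G *ᵥ v) ≤ n2 v / κ ^ 2 := by
  have h1 := norm_adj hκ hs hw (fun b => (starRingEnd ℂ) (v b))
  rw [n2_adj hs, n2_conj] at h1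
  have h2 : (fun b => (starRingEnd ℂ) ((starRingEnd ℂ) (v b))) = v := by
    funext b
    exact Complex.conj_conj _
  rwa [h2] at h1

/-- the rows of `G` -/
theorem row_le {κ τ δ C₀ : ℝ} (hC : 1 ≤ C₀) (hκ : 0 < κ) (hκτ : κ ≤ C₀ * τ)
    (hδ : C₀ * δ ≤ 1 / 2) (hk : ∀ a, |τ * ∑ b, ‖G a b‖ ^ 2 - 1| ≤ C₀ * δ) (a : X) :
    ∑ b, ‖G a b‖ ^ 2 ≤ 2 * C₀ / κ := by
  have h1 := (abs_le.1 (hk a)).2
  have h2 : τ * ∑ b, ‖G a b‖ ^ 2 ≤ 2 := by linarith
  have h3 : 0 ≤ ∑ b, ‖G a b‖ ^ 2 := Finset.sum_nonneg fun _ _ => by positivity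
  rw [le_div_iff₀ hκ]
  calc (∑ b, ‖G a b‖ ^ 2) * κ ≤ (∑ b, ‖G a b‖ ^ 2) * (C₀ * τ) :=
        mul_le_mul_of_nonneg_left hκτ h3
    _ = C₀ * (τ * ∑ b, ‖G a b‖ ^ 2) := by ring
    _ ≤ C₀ * 2 := mul_le_mul_of_nonneg_left h2 (by linarith)
    _ = 2 * C₀ := by ring

/-- the sum over `c` of `|g_c v|²` -/
theorem gc_sum {K : ℝ} (hs : ∀ a b, G a b = G b a) (hrow : ∀ a, ∑ b, ‖G a b‖ ^ 2 ≤ K)
    (v : X → ℂ) : ∑ c, n2 (fun b => G c b * v b) ≤ K * n2 v := by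
  unfold n2
  rw [Finset.sum_comm, Finset.mul_sum]
  apply Finset.sum_le_sum
  intro b _
  have h1 : ∑ c, ‖G c b * v b‖ ^ 2 = (∑ c, ‖G b c‖ ^ 2) * ‖v b‖ ^ 2 := by
    rw [Finset.sum_mul]
    apply Finset.sum_congr rfl
    intro c _
    rw [norm_mul, mul_pow, hs c b]
  rw [h1]
  exact mul_le_mul_of_nonneg_right (hrow b) (by positivity)

theorem gd_row (φ : X → ℂ) (a b : X) :
    GD G φ a b = ∑ c, (G a c * φ c) * G c b := by
  unfold GD
  rw [Matrix.mul_apply]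
  apply Finset.sum_congr rfl
  intro c _
  rw [Matrix.mul_diagonal]

/-- the matrix `G ∘ (G μ G)` -/
theorem eb_row (G : Matrix X X ℂ) (μ v : X → ℂ) (a : X) :
    (EB G μ *ᵥ v) a = ∑ c, (2 * G a c * μ c) * (G *ᵥ fun b => G c b * v b) a := by
  have h1 : (EB G μ *ᵥ v) a = ∑ b, ∑ c, 2 * G a b * (G a c * μ c * G c b) * v b := by
    unfold Matrix.mulVec dotProduct
    apply Finset.sum_congr rfl
    intro b _
    change 2 * G a b * GD G μ a b * v b = _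
    rw [gd_row, Finset.mul_sum, Finset.sum_mul]
  rw [h1, Finset.sum_comm]
  apply Finset.sum_congr rfl
  intro c _
  unfold Matrix.mulVec dotProduct
  rw [Finset.mul_sum]
  apply Finset.sum_congr rfl
  intro b _
  ring

theorem db_row (G : Matrix X X ℂ) (v : X → ℂ) (c a : X) :
    (dB G c *ᵥ v) a = -(2 * G a c) * (G *ᵥ fun b => G c b * v b) a := by
  unfold Matrix.mulVec dotProduct
  rw [Finset.mul_sum]
  apply Finset.sum_congr rfl
  intro b _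
  change -(2 * G a b * G a c * G c b) * v b = _
  ring

theorem db_sum (hs : ∀ a b, G a b = G b a) {κ δ N C₀ K : ℝ} {𝒩 : X → Finset X} (hK : 0 ≤ K)
    (hN0 : 0 ≤ N) (hrow : ∀ a, ∑ b, ‖G a b‖ ^ 2 ≤ K)
    (hmv : ∀ v : X → ℂ, n2 (G *ᵥ v) ≤ n2 v / κ ^ 2) (hG : ∀ a b, ‖G a b‖ ≤ C₀)
    (hn : ∀ a b, b ∉ 𝒩 a → ‖G a b‖ ≤ C₀ * δ) (hN : ∀ a, ((𝒩 a).card : ℝ) ≤ N) (v : X → ℂ) :
    ∑ c, n2 (dB G c *ᵥ v) ≤ (4 * C₀ ^ 2 * K * N + 4 * (C₀ * δ) ^ 2 / κ ^ 2) * (K * n2 v) := by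
  have hc : ∀ c, n2 (dB G c *ᵥ v) ≤
      (4 * C₀ ^ 2 * K * N + 4 * (C₀ * δ) ^ 2 / κ ^ 2) * n2 (fun b => G c b * v b) := by
    intro c
    obtain ⟨w, hw⟩ : ∃ w : X → ℂ, w = fun b => G c b * v b := ⟨_, rfl⟩
    rw [← hw]
    have hw0 := n2_nn w
    have ha : ∀ a, ‖(dB G c *ᵥ v) a‖ ^ 2 ≤
        (if a ∈ 𝒩 c then 4 * C₀ ^ 2 * K * n2 w else 0) +
          4 * (C₀ * δ) ^ 2 * ‖(G *ᵥ w) a‖ ^ 2 := by
      intro a
      rw [db_row, ← hw, norm_mul, norm_neg, norm_mul, mul_pow, mul_pow, Complex.norm_ofNat]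
      by_cases hac : a ∈ 𝒩 c
      · rw [if_pos hac]
        have h1 : ‖G a c‖ ^ 2 ≤ C₀ ^ 2 := pow_le_pow_left₀ (norm_nonneg _) (hG a c) 2
        have h2 : ‖(G *ᵥ w) a‖ ^ 2 ≤ K * n2 w := by
          have h3 := cs (fun b => G a b) w
          exact h3.trans (mul_le_mul_of_nonneg_right (hrow a) hw0)
        have h4 : ‖G a c‖ ^ 2 * ‖(G *ᵥ w) a‖ ^ 2 ≤ C₀ ^ 2 * (K * n2 w) :=
          mul_le_mul h1 h2 (by positivity) (by positivity)
        have h5 : 0 ≤ 4 * (C₀ * δ) ^ 2 * ‖(G *ᵥ w) a‖ ^ 2 := by positivity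
        nlinarith
      · rw [if_neg hac, zero_add]
        have h1 : ‖G a c‖ ^ 2 ≤ (C₀ * δ) ^ 2 := by
          rw [hs a c]
          exact pow_le_pow_left₀ (norm_nonneg _) (hn c a hac) 2
        have h4 : ‖G a c‖ ^ 2 * ‖(G *ᵥ w) a‖ ^ 2 ≤ (C₀ * δ) ^ 2 * ‖(G *ᵥ w) a‖ ^ 2 :=
          mul_le_mul_of_nonneg_right h1 (by positivity)
        nlinarith
    have hsum : n2 (dB G c *ᵥ v) ≤ ((𝒩 c).card : ℝ) * (4 * C₀ ^ 2 * K * n2 w) +
        4 * (C₀ * δ) ^ 2 * n2 (G *ᵥ w) := by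
      have h1 : n2 (dB G c *ᵥ v) ≤ ∑ a, ((if a ∈ 𝒩 c then 4 * C₀ ^ 2 * K * n2 w else 0) +
          4 * (C₀ * δ) ^ 2 * ‖(G *ᵥ w) a‖ ^ 2) := Finset.sum_le_sum fun a _ => ha a
      rw [Finset.sum_add_distrib, ← Finset.mul_sum, Finset.sum_ite_mem, Finset.univ_inter,
        Finset.sum_const, nsmul_eq_mul] at h1
      exact h1
    have h5 := hmv w
    have h6 : ((𝒩 c).card : ℝ) * (4 * C₀ ^ 2 * K * n2 w) ≤ N * (4 * C₀ ^ 2 * K * n2 w) :=
      mul_le_mul_of_nonneg_right (hN c) (by positivity)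
    have h7 : 4 * (C₀ * δ) ^ 2 * n2 (G *ᵥ w) ≤ 4 * (C₀ * δ) ^ 2 * (n2 w / κ ^ 2) :=
      mul_le_mul_of_nonneg_left h5 (by positivity)
    calc n2 (dB G c *ᵥ v) ≤ N * (4 * C₀ ^ 2 * K * n2 w) + 4 * (C₀ * δ) ^ 2 * (n2 w / κ ^ 2) := by
          linarith
      _ = _ := by ring
  calc ∑ c, n2 (dB G c *ᵥ v) ≤
      ∑ c, (4 * C₀ ^ 2 * K * N + 4 * (C₀ * δ) ^ 2 / κ ^ 2) * n2 (fun b => G c b * v b) :=
        Finset.sum_le_sum fun c _ => hc c
    _ = (4 * C₀ ^ 2 * K * N + 4 * (C₀ * δ) ^ 2 / κ ^ 2) * ∑ c, n2 (fun b => G c b * v b) := by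
        rw [Finset.mul_sum]
    _ ≤ _ := mul_le_mul_of_nonneg_left (gc_sum hs hrow v) (by positivity)

theorem nrb : NrbStmt := by
  intro C₀ hC
  refine ⟨16 * C₀ ^ 4, by nlinarith [one_le_pow₀ hC (n := 4)], ?_⟩
  intro X _ _ G μ 𝒩 κ τ δ N H
  obtain ⟨hκ, hκ1, hτ, hκτ, -⟩ := H.hκ
  obtain ⟨hδ0, hδ1, hN1⟩ := H.hδ
  have hs := H.hs
  have hC0 : 0 < C₀ := by linarith
  have hrow := row_le hC hκ hκτ hδ1 H.hk
  have hmv := norm_mv hκ hs H.hw
  have h3 : (1 : ℝ) ≤ C₀ ^ 3 := one_le_pow₀ hC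
  have h4 : (1 : ℝ) ≤ C₀ ^ 4 := one_le_pow₀ hC
  have hCC : 2 * C₀ ≤ 16 * C₀ ^ 4 := by nlinarith
  have hdb : ∀ v : X → ℂ, ∑ c, n2 (dB G c *ᵥ v) ≤
      16 * C₀ ^ 4 * (N / κ ^ 2 + δ ^ 2 / κ ^ 3) * n2 v := by
    intro v
    have h5 := db_sum hs (K := 2 * C₀ / κ) (by positivity) (by linarith) hrow hmv H.hG
      (fun a b => (H.hn a b).2) H.hN v
    refine h5.trans ?_
    have hv := n2_nn v
    have e : (4 * C₀ ^ 2 * (2 * C₀ / κ) * N + 4 * (C₀ * δ) ^ 2 / κ ^ 2) * (2 * C₀ / κ * n2 v) =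
        (16 * C₀ ^ 4 * (N / κ ^ 2) + 8 * C₀ ^ 3 * (δ ^ 2 / κ ^ 3)) * n2 v := by
      field_simp
      ring
    rw [e]
    apply mul_le_mul_of_nonneg_right _ hv
    have h6 : 8 * C₀ ^ 3 * (δ ^ 2 / κ ^ 3) ≤ 16 * C₀ ^ 4 * (δ ^ 2 / κ ^ 3) := by
      apply mul_le_mul_of_nonneg_right _ (by positivity)
      nlinarith
    linarith
  refine ⟨fun v => ⟨hmv v, norm_adj hκ hs H.hw v⟩, ?_, ?_, ?_, hdb, ?_⟩
  · intro φ s hs0 hφ a b
    have h5 : ‖GD G φ a b‖ ^ 2 ≤ (s * (2 * C₀ / κ)) ^ 2 := by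
      rw [gd_row]
      refine (cs _ _).trans ?_
      have h6 : ∑ c, ‖G a c * φ c‖ ^ 2 ≤ s ^ 2 * (2 * C₀ / κ) := by
        calc ∑ c, ‖G a c * φ c‖ ^ 2 ≤ ∑ c, s ^ 2 * ‖G a c‖ ^ 2 := by
              apply Finset.sum_le_sum
              intro c _
              rw [norm_mul, mul_pow, mul_comm]
              apply mul_le_mul_of_nonneg_right _ (by positivity)
              exact pow_le_pow_left₀ (norm_nonneg _) (hφ c) 2
          _ = s ^ 2 * ∑ c, ‖G a c‖ ^ 2 := by rw [Finset.mul_sum]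
          _ ≤ _ := mul_le_mul_of_nonneg_left (hrow a) (by positivity)
      have h7 : ∑ c, ‖G c b‖ ^ 2 ≤ 2 * C₀ / κ := by
        have : ∑ c, ‖G c b‖ ^ 2 = ∑ c, ‖G b c‖ ^ 2 := by
          apply Finset.sum_congr rfl
          intro c _
          rw [hs c b]
        rw [this]
        exact hrow b
      calc (∑ c, ‖G a c * φ c‖ ^ 2) * ∑ c, ‖G c b‖ ^ 2 ≤
            (s ^ 2 * (2 * C₀ / κ)) * (2 * C₀ / κ) :=
              mul_le_mul h6 h7 (Finset.sum_nonneg fun _ _ => by positivity) (by positivity)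
        _ = _ := by ring
    have h8 : ‖GD G φ a b‖ ≤ s * (2 * C₀ / κ) :=
      le_of_sq_le_sq h5 (by positivity)
    refine h8.trans ?_
    have e : s * (2 * C₀ / κ) = 2 * C₀ * (s / κ) := by ring
    have e' : 16 * C₀ ^ 4 * s / κ = 16 * C₀ ^ 4 * (s / κ) := by ring
    rw [e, e']
    exact mul_le_mul_of_nonneg_right hCC (by positivity)
  · intro φ s hs0 hφ a
    have h5 : ∑ b, ‖GD G φ a b‖ ^ 2 = n2 (G *ᵥ fun c => G a c * φ c) := by
      unfold n2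
      apply Finset.sum_congr rfl
      intro b _
      rw [gd_row]
      unfold Matrix.mulVec dotProduct
      congr 2
      apply Finset.sum_congr rfl
      intro c _
      rw [hs c b, mul_comm]
    rw [h5]
    refine (hmv _).trans ?_
    have h6 : n2 (fun c => G a c * φ c) ≤ s ^ 2 * (2 * C₀ / κ) := by
      unfold n2
      calc ∑ c, ‖G a c * φ c‖ ^ 2 ≤ ∑ c, s ^ 2 * ‖G a c‖ ^ 2 := by
            apply Finset.sum_le_sum
            intro c _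
            rw [norm_mul, mul_pow, mul_comm]
            apply mul_le_mul_of_nonneg_right _ (by positivity)
            exact pow_le_pow_left₀ (norm_nonneg _) (hφ c) 2
        _ = s ^ 2 * ∑ c, ‖G a c‖ ^ 2 := by rw [Finset.mul_sum]
        _ ≤ _ := mul_le_mul_of_nonneg_left (hrow a) (by positivity)
    calc n2 (fun c => G a c * φ c) / κ ^ 2 ≤ (s ^ 2 * (2 * C₀ / κ)) / κ ^ 2 :=
          div_le_div_of_nonneg_right h6 (by positivity)
      _ = 2 * C₀ * (s ^ 2 / κ ^ 3) := by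
          field_simp
      _ ≤ 16 * C₀ ^ 4 * (s ^ 2 / κ ^ 3) := mul_le_mul_of_nonneg_right hCC (by positivity)
      _ = 16 * C₀ ^ 4 * s ^ 2 / κ ^ 3 := by ring
  · intro v
    have hv := n2_nn v
    have h5 : n2 (EB G μ *ᵥ v) ≤
        4 * (C₀ * δ) ^ 2 * (2 * C₀ / κ) * ∑ c, n2 (G *ᵥ fun b => G c b * v b) := by
      have h6 : ∀ a, ‖(EB G μ *ᵥ v) a‖ ^ 2 ≤
          4 * (C₀ * δ) ^ 2 * (2 * C₀ / κ) * ∑ c, ‖(G *ᵥ fun b => G c b * v b) a‖ ^ 2 := by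
        intro a
        rw [eb_row G μ v a]
        refine (cs _ _).trans ?_
        apply mul_le_mul_of_nonneg_right _ (Finset.sum_nonneg fun _ _ => by positivity)
        calc ∑ c, ‖2 * G a c * μ c‖ ^ 2 ≤ ∑ c, 4 * (C₀ * δ) ^ 2 * ‖G a c‖ ^ 2 := by
              apply Finset.sum_le_sum
              intro c _
              rw [norm_mul, norm_mul, mul_pow, mul_pow, Complex.norm_ofNat]
              have h7 : ‖μ c‖ ^ 2 ≤ (C₀ * δ) ^ 2 :=
                pow_le_pow_left₀ (norm_nonneg _) (H.hμ c) 2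
              have h8 : 0 ≤ ‖G a c‖ ^ 2 := by positivity
              nlinarith [mul_le_mul_of_nonneg_left h7 h8]
          _ = 4 * (C₀ * δ) ^ 2 * ∑ c, ‖G a c‖ ^ 2 := by rw [Finset.mul_sum]
          _ ≤ _ := mul_le_mul_of_nonneg_left (hrow a) (by positivity)
      unfold n2
      rw [Finset.sum_comm, Finset.mul_sum]
      exact Finset.sum_le_sum fun a _ => h6 a
    have h9 : ∑ c, n2 (G *ᵥ fun b => G c b * v b) ≤ (2 * C₀ / κ * n2 v) / κ ^ 2 := by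
      calc ∑ c, n2 (G *ᵥ fun b => G c b * v b) ≤ ∑ c, n2 (fun b => G c b * v b) / κ ^ 2 :=
            Finset.sum_le_sum fun c _ => hmv _
        _ = (∑ c, n2 (fun b => G c b * v b)) / κ ^ 2 := by rw [Finset.sum_div]
        _ ≤ _ := div_le_div_of_nonneg_right (gc_sum hs hrow v) (by positivity)
    have h10 : n2 (EB G μ *ᵥ v) ≤
        4 * (C₀ * δ) ^ 2 * (2 * C₀ / κ) * ((2 * C₀ / κ * n2 v) / κ ^ 2) :=
      h5.trans (mul_le_mul_of_nonneg_left h9 (by positivity))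
    refine h10.trans ?_
    have e1 : 4 * (C₀ * δ) ^ 2 * (2 * C₀ / κ) * ((2 * C₀ / κ * n2 v) / κ ^ 2) =
        16 * C₀ ^ 4 * (δ ^ 2 / κ ^ 4 * n2 v) := by
      field_simp
      ring
    have e2 : (16 * C₀ ^ 4 * δ / κ ^ 2) ^ 2 * n2 v =
        (16 * C₀ ^ 4) ^ 2 * (δ ^ 2 / κ ^ 4 * n2 v) := by
      field_simp
    rw [e1, e2]
    apply mul_le_mul_of_nonneg_right _ (by positivity)
    nlinarith
  · intro v
    have h5 : ∀ c, n2 ((dB G c)ᴴ *ᵥ v) = n2 (dB G c *ᵥ fun b => (starRingEnd ℂ) (v b)) := by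
      intro c
      apply n2_adj
      intro a b
      change -(2 * G a b * G a c * G c b) = -(2 * G b a * G b c * G c a)
      rw [hs a b, hs a c, hs c b]
      ring
    rw [Finset.sum_congr rfl (fun c _ => h5 c)]
    have h6 := hdb (fun b => (starRingEnd ℂ) (v b))
    rwa [n2_conj] at h6

end nrb

end Pool.Agent.LE.QF.H81
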