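import Pool.Agent.LE.StmtsQH

/-!
# Row TOF of squad LQF: the torus
-/

set_option autoImplicit false

open MeasureTheory ProbabilityTheory Function Filter

open scoped ENNReal BigOperators Topology NNReal ComplexOrder Matrix

noncomputable section

namespace Pool.Agent.LE.QF.H81

open Pool.Agent.Anderson hiding box mem_box card_box
open Pool.Agent.Loc Pool.Agent.Mob Pool.Agent.Helper54.Bal
  Pool.Agent.Helper96.EXP Pool.Agent.BED
open Pool.Agent.LE.MN Pool.Agent.LE.CL Pool.Agent.LE.IR Pool.Agent.LE.QD Pool.Agent.LE.QF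

/-- from eventually to a threshold -/
theorem small_of_ev {P : ℝ → Prop} (h : ∀ᶠ s in 𝓝[>] (0 : ℝ), P s) :
    ∃ c : ℝ, 0 < c ∧ ∀ s, 0 < s → s ≤ c → P s := by
  obtain ⟨u, hu, hs⟩ := mem_nhdsGT_iff_exists_Ioc_subset.1 h
  exact ⟨u, hu, fun s h0 h1 => hs ⟨h0, h1⟩⟩

theorem ev_rpow {r ρ K : ℝ} (hr : 0 < r) (hρ : 0 < ρ) :
    ∀ᶠ s in 𝓝[>] (0 : ℝ), K * s ^ r ≤ ρ := by
  have h1 : Tendsto (fun s : ℝ => K * s ^ r) (𝓝[>] 0) (𝓝 (K * 0)) := by
    apply Tendsto.const_mul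
    have h2 : Tendsto (fun s : ℝ => s ^ r) (𝓝 0) (𝓝 ((0 : ℝ) ^ r)) :=
      (Real.continuousAt_rpow_const 0 r (Or.inr hr.le)).tendsto
    rw [Real.zero_rpow hr.ne'] at h2
    exact h2.mono_left nhdsWithin_le_nhds
  rw [mul_zero] at h1
  exact (h1.eventually (gt_mem_nhds hρ)).mono fun s hs => hs.le

theorem ev_log {r ρ K : ℝ} (hr : 0 < r) (hρ : 0 < ρ) :
    ∀ᶠ s in 𝓝[>] (0 : ℝ), K * (s ^ r * Real.log (1 / s)) ≤ ρ := by
  have h1 : Tendsto (fun s : ℝ => -K * (Real.log s * s ^ r)) (𝓝[>] 0) (𝓝 (-K * 0)) :=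
    (tendsto_log_mul_rpow_nhdsGT_zero hr).const_mul _
  rw [mul_zero] at h1
  refine (h1.eventually (gt_mem_nhds hρ)).mono fun s hs => ?_
  have e : K * (s ^ r * Real.log (1 / s)) = -K * (Real.log s * s ^ r) := by
    rw [one_div, Real.log_inv]
    ring
  rw [e]
  exact hs.le

theorem ev_exp {θ B K : ℝ} (hθ : 0 < θ) :
    ∀ᶠ s in 𝓝[>] (0 : ℝ), K * (s ^ (-B) * Real.exp (-(s ^ (-θ) / 8))) ≤ 1 := by
  have h1 : Tendsto (fun s : ℝ => s ^ (-θ)) (𝓝[>] 0) atTop :=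
    tendsto_rpow_neg_nhdsGT_zero (by linarith)
  have h2 := (tendsto_rpow_mul_exp_neg_mul_atTop_nhds_zero (B / θ) (1 / 8) (by norm_num)).comp h1
  have h3 := h2.const_mul K
  rw [mul_zero] at h3
  have h4 := h3.eventually (gt_mem_nhds (zero_lt_one))
  filter_upwards [h4, self_mem_nhdsWithin] with s hs hs0
  have hs0' : (0 : ℝ) < s := hs0
  have e1 : (s ^ (-θ)) ^ (B / θ) = s ^ (-B) := by
    rw [← Real.rpow_mul hs0'.le]
    congr 1
    field_simp
  have e2 : K * (s ^ (-B) * Real.exp (-(s ^ (-θ) / 8))) =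
      K * ((s ^ (-θ)) ^ (B / θ) * Real.exp (-(1 / 8) * s ^ (-θ))) := by
    rw [e1]
    congr 3
    ring
  rw [e2]
  exact hs.le

theorem adm_mono {d M : ℕ} [NeZero M] {D : Dat d M} {c₁ C₁ c₀ c₀' : ℝ} {k₀ : ℕ}
    (h : Adm D c₁ C₁ c₀ k₀) (hc : c₀ ≤ c₀') : Adm D c₁ C₁ c₀' k₀ :=
  { h with hδ := ⟨h.hδ.1, h.hδ.2.1, h.hδ.2.2.trans hc⟩ }

theorem tof (hIni : IniStmt) (hUpr : UprStmt) (hOut : OutStmt) : TofStmt := by
  intro d a ε A' hd ha hε hε1 hA'
  obtain ⟨θ, c₁, C₁, k₀, hθ, hθ1, hc₁, hC₁, hI⟩ := hIni d a ε hd ha hε hε1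
  obtain ⟨cU, CU, hcU, -, hCU, hU⟩ := hUpr c₁ C₁ k₀ hc₁ hC₁
  obtain ⟨cO, CO, hcO, -, hCO, hO⟩ := hOut c₁ C₁ k₀ hc₁ hC₁
  obtain ⟨cI, CI, hcI, hcI4, hCI, hI'⟩ := hI (min cU cO) (lt_min hcU hcO)
  have hd3 : (3 : ℝ) ≤ d := by exact_mod_cast hd
  have hCU0 : 0 < CU := by linarith
  have hCI0 : 0 < CI := by linarith
  have hCO0 : 0 < CO := by linarith
  -- the thresholds
  obtain ⟨t1, ht1, hs1⟩ := small_of_ev ((ev_rpow (K := CU * CI) (ρ := 1 / 2) hθ (by norm_num)).and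
    (ev_log (K := CU * CI * (2 * d)) (ρ := 1 / 2) hθ (by norm_num)))
  obtain ⟨t2, ht2, hs2⟩ := small_of_ev (ev_exp (θ := θ)
    (B := 2 + 2 * d * (4 * d + 6) + A')
    (K := 3 * CU * (2 + CI) * (1 + 2 * d) * 2) hθ)
  obtain ⟨t3, ht3, hs3⟩ := small_of_ev (ev_rpow (K := 3 * CO + 1) (ρ := 1) (half_pos hθ)
    (by norm_num))
  refine ⟨θ / 2, min (min cI (c₁ / 2)) (min t1 (min t2 t3)), half_pos hθ, ?_, ?_, ?_⟩
  · exact lt_min (lt_min hcI (by linarith)) (lt_min ht1 (lt_min ht2 ht3))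
  · exact (min_le_left _ _).trans ((min_le_left _ _).trans hcI4)
  intro M _ v σ E η hv hσ hσc hE1 hE2 hη hM1 hM2
  obtain ⟨s, hs⟩ : ∃ s, s = |σ| := ⟨_, rfl⟩
  rw [← hs] at hσc hE1 hη hM1 hM2 ⊢
  have hs0 : 0 < s := by rw [hs]; exact abs_pos.2 hσ
  have hc1 : s ≤ cI := hσc.trans ((min_le_left _ _).trans (min_le_left _ _))
  have hc3 : s ≤ t1 := hσc.trans ((min_le_right _ _).trans (min_le_left _ _))
  have hc4 : s ≤ t2 := hσc.trans ((min_le_right _ _).trans ((min_le_right _ _).trans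
    (min_le_left _ _)))
  have hc5 : s ≤ t3 := hσc.trans ((min_le_right _ _).trans ((min_le_right _ _).trans
    (min_le_right _ _)))
  obtain ⟨hn1, hn2⟩ := hs1 s hs0 hc3
  have hn3 := hs2 s hs0 hc4
  have hn4 := hs3 s hs0 hc5
  have hs1' : s ≤ 1 := by linarith
  obtain ⟨D, hAdm, hDE, hDη, hDT, hDa, hDp, hDδ, hDe, hDw, hDb, hDS⟩ :=
    hI' M σ E η hσ (by rw [← hs]; exact hc1) (by rw [← hs]; exact hE1) hE2
      (by rw [← hs]; exact hη) (by rw [← hs]; exact hM1) (by rw [← hs]; exact hM2)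
  rw [← hs] at hDa hDp hDδ hDe hDb hDS
  have hη0 : 0 < η := by rw [hη]; exact Real.rpow_pos_of_pos hs0 _
  have hMpos : (0 : ℝ) < M := by
    exact_mod_cast Nat.pos_of_ne_zero (NeZero.ne M)
  subst hDE
  subst hDη
  -- the event
  have hsub : {V | ¬ ((∀ x, min (min cI (c₁ / 2)) (min t1 (min t2 t3)) ≤
        (rs V ⟨D.E, D.η⟩ x x).im) ∧
      ∀ C' : Finset (Tor d M), (C'.card : ℝ) ≤ s ^ (-((d : ℝ) * (d + 1 - ε))) →
        mss V ⟨D.E, D.η⟩ C' ≤ s ^ (θ / 2) * C'.card / D.η)} ⊆ {V | 1 ≤ D.U (D.T, V)} := by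
    intro V hV
    rw [Set.mem_ofPred_eq] at hV ⊢
    by_contra hlt
    push Not at hlt
    apply hV
    obtain ⟨h1, h2⟩ := hO d M D V (adm_mono hAdm (min_le_right _ _)) hlt
    refine ⟨fun x => ?_, fun C' hC' => ?_⟩
    · exact ((min_le_left _ _).trans (min_le_right _ _)).trans (h1 x)
    · have h3 := h2 C'
      have h4 := hDS C' hC'
      have hcard : (0 : ℝ) ≤ C'.card := Nat.cast_nonneg _
      have h5 : (C'.card : ℝ) / (M : ℝ) ^ d ≤ s ^ θ := by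
        rw [div_le_iff₀ (by positivity)]
        have h6 : (s ^ (-(4 * (d : ℝ) + 4))) ^ d ≤ (M : ℝ) ^ d :=
          pow_le_pow_left₀ (Real.rpow_nonneg hs0.le _) hM1 d
        have h7 : (s ^ (-(4 * (d : ℝ) + 4))) ^ d = s ^ (-(4 * (d : ℝ) + 4) * d) := by
          rw [← Real.rpow_natCast, ← Real.rpow_mul hs0.le]
        rw [h7] at h6
        refine hC'.trans ?_
        calc s ^ (-((d : ℝ) * (d + 1 - ε))) ≤ s ^ (θ + -(4 * (d : ℝ) + 4) * d) := by
              apply Real.rpow_le_rpow_of_exponent_ge hs0 hs1'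
              have hdd : 1 ≤ (d : ℝ) * (3 * d + 3 + ε) :=
                one_le_mul_of_one_le_of_one_le (by linarith only [hd3])
                  (by linarith only [hd3, hε])
              linarith only [hdd, hθ1]
          _ = s ^ θ * s ^ (-(4 * (d : ℝ) + 4) * d) := Real.rpow_add hs0 _ _
          _ ≤ s ^ θ * (M : ℝ) ^ d := mul_le_mul_of_nonneg_left h6 (Real.rpow_nonneg hs0.le _)
      have h8 : D.δ + (D.e₀ - 1) + (C'.card : ℝ) / (M : ℝ) ^ d ≤ 3 * s ^ θ := by linarith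
      have h9 : CO / D.η * (D.δ + (D.e₀ - 1) + (C'.card : ℝ) / (M : ℝ) ^ d) * C'.card ≤
          CO / D.η * (3 * s ^ θ) * C'.card := by
        apply mul_le_mul_of_nonneg_right _ hcard
        exact mul_le_mul_of_nonneg_left h8 (by positivity)
      have h10 : CO / D.η * (3 * s ^ θ) * C'.card + s ^ θ * C'.card / D.η =
          ((3 * CO + 1) * s ^ (θ / 2)) * (s ^ (θ / 2) * C'.card / D.η) := by
        have e : s ^ θ = s ^ (θ / 2) * s ^ (θ / 2) := by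
          rw [← Real.rpow_add hs0]
          congr 1
          ring
        rw [e]
        field_simp
      have h11 : ((3 * CO + 1) * s ^ (θ / 2)) * (s ^ (θ / 2) * C'.card / D.η) ≤
          1 * (s ^ (θ / 2) * C'.card / D.η) := by
        apply mul_le_mul_of_nonneg_right hn4
        have := Real.rpow_nonneg hs0.le (θ / 2)
        positivity
      rw [one_mul] at h11
      linarith
  refine (measure_mono hsub).trans ?_
  refine (hU d M D v (adm_mono hAdm (min_le_left _ _)) (by rw [hv, hDT])).trans ?_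
  apply ENNReal.ofReal_le_ofReal
  -- the numbers
  obtain ⟨ℓ, hℓ⟩ : ∃ ℓ, ℓ = 1 + Real.log (D.w / D.η) := ⟨_, rfl⟩
  rw [← hℓ]
  have hw0 : D.η ≤ D.w := by
    unfold Dat.w Dat.kp
    have h1 := hAdm.hT.1
    have h2 := hAdm.hm.1
    have : 0 ≤ (D.T - 0) * D.m.im := mul_nonneg (by linarith) (by linarith)
    linarith
  have hℓ1 : 1 ≤ ℓ := by
    rw [hℓ]
    have : 0 ≤ Real.log (D.w / D.η) := Real.log_nonneg (by rw [le_div_iff₀ hη0]; linarith)
    linarith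
  have hℓ2 : ℓ ≤ 1 + 2 * d * Real.log (1 / s) := by
    rw [hℓ]
    have h1 : Real.log (D.w / D.η) ≤ Real.log (1 / D.η) := by
      apply Real.log_le_log (div_pos (by linarith) hη0)
      exact div_le_div_of_nonneg_right hDw hη0.le
    have h2 : Real.log (1 / D.η) = (2 * d - ε) * Real.log (1 / s) := by
      rw [hη, one_div, one_div, Real.log_inv, Real.log_inv, Real.log_rpow hs0]
      ring
    have h3 : 0 ≤ Real.log (1 / s) := Real.log_nonneg (by rw [le_div_iff₀ hs0]; linarith)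
    have h4 : (2 * d - ε) * Real.log (1 / s) ≤ 2 * d * Real.log (1 / s) :=
      mul_le_mul_of_nonneg_right (by linarith) h3
    linarith
  have hsi : 1 ≤ 1 / s := by rw [le_div_iff₀ hs0]; linarith
  have hls : Real.log (1 / s) ≤ 1 / s := by
    have := Real.log_le_sub_one_of_pos (show (0 : ℝ) < 1 / s by positivity)
    linarith
  have haN : CU * D.aN * ℓ ≤ 1 := by
    have hsθ := Real.rpow_nonneg hs0.le θ
    have h1 : CU * D.aN * ℓ ≤ CU * (CI * s ^ θ) * (1 + 2 * d * Real.log (1 / s)) := by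
      have h2 : CU * D.aN ≤ CU * (CI * s ^ θ) := mul_le_mul_of_nonneg_left hDa (by linarith)
      calc CU * D.aN * ℓ ≤ CU * (CI * s ^ θ) * ℓ :=
            mul_le_mul_of_nonneg_right h2 (by linarith)
        _ ≤ _ := mul_le_mul_of_nonneg_left hℓ2 (by positivity)
    have h3 : CU * (CI * s ^ θ) * (1 + 2 * d * Real.log (1 / s)) =
        CU * CI * s ^ θ + CU * CI * (2 * d) * (s ^ θ * Real.log (1 / s)) := by ring
    linarith
  have hexp : Real.exp (CU * D.aN * ℓ) ≤ 3 := by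
    refine (Real.exp_le_exp.2 haN).trans ?_
    have := Real.exp_one_lt_d9
    linarith
  have hsθ1 : s ^ θ ≤ 1 := Real.rpow_le_one hs0.le hs1' hθ.le
  have hp1 : (D.p : ℝ) ≤ 1 / s := by
    have h1 : s ^ (-1 : ℝ) = 1 / s := by rw [Real.rpow_neg_one, one_div]
    rwa [h1] at hDp
  have hw1 : 0 < D.w := by linarith
  have hδ0 := hAdm.hδ.1
  have hε0 : 0 < D.ε₁ := by
    have := hAdm.hδ.2.1
    linarith
  have he0 : 0 ≤ D.e₀ - 1 := by
    have h1 := hAdm.he.1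
    have h2 := hAdm.he.2.1
    linarith
  have he1 : 0 < D.e₁ := by
    have h1 := hAdm.he.1
    linarith
  obtain ⟨-, -, hL0, hN0, hπ0⟩ := hAdm.hj
  have hL0' : 0 < D.L₀ := by linarith
  have hN0' : 0 < D.N := by linarith
  have haN0 : 0 ≤ D.aN := by
    unfold Dat.aN Dat.ch
    positivity
  have haN2 : 1 + D.aN + D.p ≤ (2 + CI) * (1 / s) := by
    have h1 : D.aN ≤ CI := hDa.trans (mul_le_of_le_one_right hCI0.le hsθ1)
    have h2 : CI ≤ CI * (1 / s) := le_mul_of_one_le_right hCI0.le hsi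
    linarith only [h1, h2, hsi, hp1]
  have hℓ3 : ℓ ≤ (1 + 2 * d) * (1 / s) := by
    have h1 : 2 * (d : ℝ) * Real.log (1 / s) ≤ 2 * d * (1 / s) :=
      mul_le_mul_of_nonneg_left hls (by positivity)
    linarith only [h1, hsi, hℓ2]
  have hbN : D.bN ≤ 2 * (s ^ (-(2 * d * (4 * (d : ℝ) + 6))) * Real.exp (-(s ^ (-θ) / 8))) := by
    unfold Dat.bN
    have h1 : ((M : ℝ) ^ d) ^ 2 ≤ s ^ (-(2 * d * (4 * (d : ℝ) + 6))) := by
      have h2 : ((M : ℝ) ^ d) ^ 2 ≤ ((s ^ (-(4 * (d : ℝ) + 6))) ^ d) ^ 2 :=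
        pow_le_pow_left₀ (by positivity) (pow_le_pow_left₀ hMpos.le hM2 d) 2
      refine h2.trans (le_of_eq ?_)
      rw [← pow_mul, ← Real.rpow_natCast, ← Real.rpow_mul hs0.le]
      congr 1
      push_cast
      ring
    calc 2 * ((M : ℝ) ^ d) ^ 2 * ((1 / 4) ^ D.j + (1 / D.e₁) ^ D.p) ≤
        2 * s ^ (-(2 * d * (4 * (d : ℝ) + 6))) * Real.exp (-(s ^ (-θ) / 8)) := by
          apply mul_le_mul (by linarith) hDb (by positivity)
          have := Real.rpow_nonneg hs0.le (-(2 * d * (4 * (d : ℝ) + 6)))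
          linarith
      _ = _ := by ring
  have hbN0 : 0 ≤ D.bN := by
    unfold Dat.bN
    positivity
  have hX : 0 ≤ s ^ (-(2 * d * (4 * (d : ℝ) + 6))) * Real.exp (-(s ^ (-θ) / 8)) :=
    mul_nonneg (Real.rpow_nonneg hs0.le _) (Real.exp_nonneg _)
  have hsi0 : 0 < 1 / s := by positivity
  have hmid : CU * (1 + D.aN + D.p) * ℓ * D.bN ≤
      CU * ((2 + CI) * (1 / s)) * ((1 + 2 * d) * (1 / s)) *
        (2 * (s ^ (-(2 * d * (4 * (d : ℝ) + 6))) * Real.exp (-(s ^ (-θ) / 8)))) := by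
    apply mul_le_mul _ hbN hbN0 (by positivity)
    apply mul_le_mul _ hℓ3 (by linarith) (by positivity)
    exact mul_le_mul_of_nonneg_left haN2 hCU0.le
  have hmid0 : 0 ≤ CU * (1 + D.aN + D.p) * ℓ * D.bN := by positivity
  have hsA : 0 < s ^ A' := Real.rpow_pos_of_pos hs0 _
  calc Real.exp (CU * D.aN * ℓ) * (CU * (1 + D.aN + D.p) * ℓ * D.bN) ≤
      3 * (CU * ((2 + CI) * (1 / s)) * ((1 + 2 * d) * (1 / s)) *
        (2 * (s ^ (-(2 * d * (4 * (d : ℝ) + 6))) * Real.exp (-(s ^ (-θ) / 8))))) :=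
        mul_le_mul hexp hmid hmid0 (by norm_num)
    _ = s ^ A' * (3 * CU * (2 + CI) * (1 + 2 * d) * 2 *
        (s ^ (-(2 + 2 * d * (4 * (d : ℝ) + 6) + A')) * Real.exp (-(s ^ (-θ) / 8)))) := by
        have e1 : s ^ (-(2 + 2 * d * (4 * (d : ℝ) + 6) + A')) =
            (1 / s) * (1 / s) * s ^ (-(2 * d * (4 * (d : ℝ) + 6))) * (s ^ A')⁻¹ := by
          have e2 : -(2 + 2 * d * (4 * (d : ℝ) + 6) + A') =
              (-1 + -1) + -(2 * d * (4 * (d : ℝ) + 6)) + -A' := by ring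
          rw [e2, Real.rpow_add hs0, Real.rpow_add hs0, Real.rpow_add hs0, Real.rpow_neg_one,
            Real.rpow_neg hs0.le A', one_div]
        rw [e1]
        field_simp
    _ ≤ s ^ A' * 1 := mul_le_mul_of_nonneg_left hn3 hsA.le
    _ = s ^ A' := mul_one _

end Pool.Agent.LE.QF.H81
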