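import Pool.Agent.LE.StmtsQG

/-!
# Row UPD of squad LQF: the part of `W`
-/

set_option autoImplicit false
set_option linter.unusedSectionVars false

open scoped BigOperators Matrix

noncomputable section

namespace Pool.Agent.LE.QF.H81

open Pool.Agent.LE.QD Pool.Agent.LE.QF Pool.Agent.LE.IR Pool.Agent.BED

section alg

variable {X : Type} [Fintype X] [DecidableEq X]

theorem qf_add (A B : Matrix X X ℝ) (f : X → ℝ) : qf (A + B) f = qf A f + qf B f := by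
  unfold qf
  rw [← Finset.sum_add_distrib]
  apply Finset.sum_congr rfl
  intro a _
  rw [Matrix.add_mulVec, Pi.add_apply, mul_add]

theorem qf_smul (c : ℝ) (A : Matrix X X ℝ) (f : X → ℝ) : qf (c • A) f = c * qf A f := by
  unfold qf
  rw [Finset.mul_sum]
  apply Finset.sum_congr rfl
  intro a _
  rw [Matrix.smul_mulVec, Pi.smul_apply, smul_eq_mul]
  ring

theorem qf_one (f : X → ℝ) : qf (1 : Matrix X X ℝ) f = ∑ a, f a ^ 2 := by
  unfold qf
  apply Finset.sum_congr rfl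
  intro a _
  rw [Matrix.one_mulVec]
  ring

theorem dl_apply (K : Matrix X X ℝ) (a b : X) :
    Dl K a b = (if a = b then ∑ c, K a c else 0) - K a b := by
  unfold Dl
  rw [Matrix.sub_apply, Matrix.diagonal_apply]

theorem dl_symm {K : Matrix X X ℝ} (h : ∀ a b, K a b = K b a) (a b : X) : Dl K a b = Dl K b a := by
  rw [dl_apply, dl_apply, h a b]
  by_cases hab : a = b
  · rw [hab]
  · rw [if_neg hab, if_neg (fun h => hab h.symm)]

theorem dl_row (K : Matrix X X ℝ) (a : X) : ∑ b, Dl K a b = 0 := by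
  rw [Finset.sum_congr rfl (fun b _ => dl_apply K a b), Finset.sum_sub_distrib,
    Finset.sum_ite_eq, if_pos (Finset.mem_univ a), sub_self]

theorem dl_mv (K : Matrix X X ℝ) (f : X → ℝ) (a : X) :
    (Dl K *ᵥ f) a = ∑ b, K a b * (f a - f b) := by
  unfold Matrix.mulVec dotProduct
  have h1 : ∀ b, Dl K a b * f b = (if a = b then (∑ c, K a c) * f b else 0) - K a b * f b := by
    intro b
    rw [dl_apply, sub_mul, ite_mul, zero_mul]
  rw [Finset.sum_congr rfl (fun b _ => h1 b), Finset.sum_sub_distrib, Finset.sum_ite_eq,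
    if_pos (Finset.mem_univ a), Finset.sum_mul, ← Finset.sum_sub_distrib]
  apply Finset.sum_congr rfl
  intro b _
  ring

theorem qf_dl {K : Matrix X X ℝ} (h : ∀ a b, K a b = K b a) (f : X → ℝ) :
    2 * qf (Dl K) f = ∑ a, ∑ b, K a b * (f a - f b) ^ 2 := by
  have h1 : qf (Dl K) f = ∑ a, ∑ b, K a b * (f a * (f a - f b)) := by
    unfold qf
    apply Finset.sum_congr rfl
    intro a _
    rw [dl_mv, Finset.mul_sum]
    apply Finset.sum_congr rfl
    intro b _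
    ring
  have h2 : qf (Dl K) f = ∑ a, ∑ b, K a b * (f b * (f b - f a)) := by
    rw [h1, Finset.sum_comm]
    apply Finset.sum_congr rfl
    intro a _
    apply Finset.sum_congr rfl
    intro b _
    rw [h b a]
  calc 2 * qf (Dl K) f = ∑ a, ∑ b, K a b * (f a * (f a - f b)) +
        ∑ a, ∑ b, K a b * (f b * (f b - f a)) := by
        rw [← h1, ← h2]
        ring
    _ = _ := by
        rw [← Finset.sum_add_distrib]
        apply Finset.sum_congr rfl
        intro a _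
        rw [← Finset.sum_add_distrib]
        apply Finset.sum_congr rfl
        intro b _
        ring

theorem qf_dl_nonneg {K : Matrix X X ℝ} (h : ∀ a b, K a b = K b a) (h0 : ∀ a b, 0 ≤ K a b)
    (f : X → ℝ) : 0 ≤ qf (Dl K) f := by
  have h1 := qf_dl h f
  have h2 : 0 ≤ ∑ a, ∑ b, K a b * (f a - f b) ^ 2 :=
    Finset.sum_nonneg fun a _ => Finset.sum_nonneg fun b _ => mul_nonneg (h0 a b) (sq_nonneg _)
  linarith

variable {G : Matrix X X ℂ}

theorem kk_symm (hs : ∀ a b, G a b = G b a) (a b : X) : KK G a b = KK G b a := by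
  unfold KK
  rw [hs a b]

theorem mul_symm {A : Matrix X X ℝ} (h : ∀ a b, A a b = A b a) (a b : X) :
    (A * A) a b = (A * A) b a := by
  rw [Matrix.mul_apply, Matrix.mul_apply]
  apply Finset.sum_congr rfl
  intro c _
  rw [h a c, h c b, mul_comm]

theorem gd_symm (hs : ∀ a b, G a b = G b a) (μ : X → ℂ) (a b : X) : GD G μ a b = GD G μ b a := by
  unfold GD
  rw [Matrix.mul_apply, Matrix.mul_apply]
  apply Finset.sum_congr rfl
  intro c _
  rw [Matrix.mul_diagonal, Matrix.mul_diagonal, hs a c, hs c b]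
  ring

theorem ek_symm (hs : ∀ a b, G a b = G b a) (μ : X → ℂ) (a b : X) : EK G μ a b = EK G μ b a := by
  unfold EK
  rw [hs a b, gd_symm hs μ a b]

theorem dk_symm (hs : ∀ a b, G a b = G b a) (c a b : X) : dK G c a b = dK G c b a := by
  unfold dK
  rw [hs a b, hs a c, hs c b]
  have e : (starRingEnd ℂ) (G b a) * G c a * G b c = (starRingEnd ℂ) (G b a) * G b c * G c a := by
    ring
  rw [e]

end alg

theorem upd (hJtb : JtbStmt) (hWfb : WfbStmt) (hWtu : WtuStmt) (hRsj : RsjStmt)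
    (hNnu : NnuStmt) : UpdStmt := by
  intro c₁ C₁ C₀ k₀ hc₁ hC₁ hC₀
  obtain ⟨K, hK, hW⟩ := hWfb C₀ hC₀
  have hK0 : 0 < K := by linarith
  have hC00 : 0 < C₀ := by linarith
  refine ⟨1 / K, 8 * K * C₀, by positivity, by nlinarith, ?_⟩
  intro d M _ D c₀ κ τ q hc₀ hAdm hq0 hqT hGoo
  obtain ⟨hκ, hτ, hηκ, hκw, hτ0, hτκ, hκτ⟩ := hGoo.hκ
  have hη0 : 0 < D.η := hAdm.hT.2.1
  have hκ0 : 0 < κ := by linarith
  obtain ⟨hJ, -, -, -, -, -⟩ := hRsj d M D c₁ C₁ c₀ k₀ q hc₁ hAdm (by rw [← hκ]; exact hκ0)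
  rw [← hτ] at hJ
  obtain ⟨-, -, -, -, hX⟩ := hJtb (Tor d M) q D.G D.ta (D.G q) D.m τ (D.mu q) hJ rfl
  have hs := hJ.hs
  obtain ⟨ht1, ht2, ht3⟩ := hJ.ht
  have hwf := hW (Tor d M) (D.G q) (D.mu q) D.nr κ τ D.δ D.N hGoo.hG
  obtain ⟨hδ0, hδε, hεc⟩ := hAdm.hδ
  obtain ⟨hj2, hp2, hL1, hN1, hπ0⟩ := hAdm.hj
  obtain ⟨he1, he1e0, he02⟩ := hAdm.he
  obtain ⟨hSs, hSp, hSr, hSd⟩ := hAdm.hS
  obtain ⟨hϖ0, hϖδ, hϖA⟩ := hAdm.hϖ
  have hw0 : 0 < D.w := by linarith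
  obtain ⟨δ', hδ'⟩ : ∃ δ', δ' = K * D.δ := ⟨_, rfl⟩
  obtain ⟨ν, hν⟩ : ∃ ν, ν = 2 * K * (D.N + D.δ ^ 2 / κ) + K * C₀ * D.π₀ / κ ^ 2 := ⟨_, rfl⟩
  have hδ'0 : 0 ≤ δ' := by rw [hδ']; positivity
  have hδ'1 : δ' ≤ 1 := by
    rw [hδ']
    have h1 : D.δ ≤ 1 / K := by linarith
    calc K * D.δ ≤ K * (1 / K) := mul_le_mul_of_nonneg_left h1 hK0.le
      _ = 1 := by field_simp
  have hν0 : 0 ≤ ν := by
    rw [hν]
    have : 0 ≤ D.N := by linarith
    positivity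
  have hKs := kk_symm hs
  have hKn : ∀ a b, 0 ≤ KK (D.G q) a b := fun a b => by
    unfold KK
    positivity
  have hvp : ∀ f, 0 ≤ qf (τ • Dl (KK (D.G q))) f := fun f => by
    rw [qf_smul]
    exact mul_nonneg hτ0.le (qf_dl_nonneg hKs hKn f)
  have hU5 : D.U5 q = Matrix.trace (((D.e₀ • (1 : Matrix (Tor d M) (Tor d M) ℝ) + τ • D.S)⁻¹ *
      (τ • Dl (KK (D.G q)) + P0 (Tor d M) + D.ϖ • (1 : Matrix (Tor d M) (Tor d M) ℝ))⁻¹) ^ D.p) := by
    rw [hτ]
    rfl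
  have hnoise : ∀ f : Tor d M → ℝ, ∑ c, qf (D.e₀ • (1 : Matrix (Tor d M) (Tor d M) ℝ) + τ • D.S)
      ((τ • Dl (dK (D.G q) c)) *ᵥ f) ≤ ν * qf (τ • Dl (KK (D.G q))) f := by
    intro f
    obtain ⟨-, hb, hc⟩ := hwf f
    have hc' := hc D.S (D.π₀ / D.w) hSs hSp (fun a => by
      rw [le_div_iff₀ hw0, mul_comm]
      exact hSd a)
    have h1 : ∑ c, qf (D.e₀ • (1 : Matrix (Tor d M) (Tor d M) ℝ) + τ • D.S)
        ((τ • Dl (dK (D.G q) c)) *ᵥ f) =
        D.e₀ * (∑ c, ∑ a, ((τ • Dl (dK (D.G q) c)) *ᵥ f) a ^ 2) +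
          τ * ∑ c, qf D.S ((τ • Dl (dK (D.G q) c)) *ᵥ f) := by
      rw [Finset.mul_sum, Finset.mul_sum, ← Finset.sum_add_distrib]
      apply Finset.sum_congr rfl
      intro c _
      rw [qf_add, qf_smul, qf_smul, qf_one]
    rw [h1]
    have hv := hvp f
    have hN0 : 0 < D.N := by linarith
    have h2 : D.e₀ * (∑ c, ∑ a, ((τ • Dl (dK (D.G q) c)) *ᵥ f) a ^ 2) ≤
        2 * (K * (D.N + D.δ ^ 2 / κ) * qf (τ • Dl (KK (D.G q))) f) := by
      apply mul_le_mul he02 hb _ (by norm_num)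
      exact Finset.sum_nonneg fun _ _ => Finset.sum_nonneg fun _ _ => sq_nonneg _
    have h3 : τ * ∑ c, qf D.S ((τ • Dl (dK (D.G q) c)) *ᵥ f) ≤
        τ * (K * (D.π₀ / D.w) / κ ^ 2 * qf (τ • Dl (KK (D.G q))) f) :=
      mul_le_mul_of_nonneg_left hc' hτ0.le
    have h4 : τ * (D.π₀ / D.w) ≤ C₀ * D.π₀ := by
      rw [← mul_div_assoc, div_le_iff₀ hw0]
      have h5 : τ ≤ C₀ * D.w := hτκ.trans (mul_le_mul_of_nonneg_left hκw hC00.le)
      have h6 := mul_le_mul_of_nonneg_right h5 hπ0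
      linarith
    have h7 : τ * (K * (D.π₀ / D.w) / κ ^ 2 * qf (τ • Dl (KK (D.G q))) f) ≤
        K * C₀ * D.π₀ / κ ^ 2 * qf (τ • Dl (KK (D.G q))) f := by
      have e : τ * (K * (D.π₀ / D.w) / κ ^ 2 * qf (τ • Dl (KK (D.G q))) f) =
          (τ * (D.π₀ / D.w)) * (K / κ ^ 2 * qf (τ • Dl (KK (D.G q))) f) := by ring
      rw [e]
      refine (mul_le_mul_of_nonneg_right h4 (by positivity)).trans (le_of_eq ?_)
      ring
    have e2 : ν * qf (τ • Dl (KK (D.G q))) f =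
        2 * (K * (D.N + D.δ ^ 2 / κ) * qf (τ • Dl (KK (D.G q))) f) +
          K * C₀ * D.π₀ / κ ^ 2 * qf (τ • Dl (KK (D.G q))) f := by
      rw [hν]
      ring
    rw [e2]
    linarith
  have hsmall : ∀ f : Tor d M → ℝ, D.ϖ * qf (D.e₀ • (1 : Matrix (Tor d M) (Tor d M) ℝ) +
      τ • D.S) f ≤ δ' * ∑ a, f a ^ 2 := by
    intro f
    have h1 := hϖA f
    have h2 : qf (D.e₀ • (1 : Matrix (Tor d M) (Tor d M) ℝ) + τ • D.S) f ≤ qf (D.A 0) f := by
      unfold Dat.A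
      rw [qf_add, qf_add, qf_smul, qf_smul, qf_smul]
      have h3 : τ ≤ D.ta 0 := by
        rw [hτ]
        unfold Dat.ta
        apply div_le_div_of_nonneg_right _ (by linarith [hAdm.hm.1])
        rw [← hκ]
        exact hκw
      have h4 := mul_le_mul_of_nonneg_right h3 (hSp f)
      linarith
    have h5 : D.δ ≤ δ' := by
      rw [hδ']
      exact le_mul_of_one_le_left hδ0.le hK
    have h6 : 0 ≤ ∑ a, f a ^ 2 := Finset.sum_nonneg fun _ _ => sq_nonneg _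
    calc D.ϖ * qf (D.e₀ • (1 : Matrix (Tor d M) (Tor d M) ℝ) + τ • D.S) f ≤
          D.ϖ * qf (D.A 0) f := mul_le_mul_of_nonneg_left h2 hϖ0.le
      _ ≤ D.δ * ∑ a, f a ^ 2 := h1
      _ ≤ _ := mul_le_mul_of_nonneg_right h5 h6
  obtain ⟨g', l', hHJ, hl'⟩ := hWtu (Tor d M) q D.X D.ta (τ • Dl (KK (D.G q)))
    (τ • Dl (KK (D.G q) * KK (D.G q) + EK (D.G q) (D.mu q)) - Dl (KK (D.G q))) D.S
    (fun c => τ • Dl (dK (D.G q) c)) D.e₀ D.ϖ δ' ν τ D.p hX ht1 ht2 ht3 hτ0 hp2 (by linarith)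
    hϖ0 hδ'0 hδ'1 hν0
    (fun a b => by rw [Matrix.smul_apply, Matrix.smul_apply, dl_symm hKs a b]) hvp
    (fun a => by
      have h1 := dl_row (KK (D.G q)) a
      calc ∑ b, (τ • Dl (KK (D.G q))) a b = τ * ∑ b, Dl (KK (D.G q)) a b := by
            rw [Finset.mul_sum]
            rfl
        _ = 0 := by rw [h1, mul_zero])
    (fun a b => by
      rw [Matrix.sub_apply, Matrix.sub_apply, Matrix.smul_apply, Matrix.smul_apply,
        dl_symm hKs a b, dl_symm (K := KK (D.G q) * KK (D.G q) + EK (D.G q) (D.mu q)) (fun a b => by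
          rw [Matrix.add_apply, Matrix.add_apply, mul_symm hKs a b, ek_symm hs (D.mu q) a b]) a b])
    (fun a => by
      have h1 := dl_row (KK (D.G q)) a
      have h2 := dl_row (KK (D.G q) * KK (D.G q) + EK (D.G q) (D.mu q)) a
      calc ∑ b, (τ • Dl (KK (D.G q) * KK (D.G q) + EK (D.G q) (D.mu q)) - Dl (KK (D.G q))) a b =
            τ * (∑ b, Dl (KK (D.G q) * KK (D.G q) + EK (D.G q) (D.mu q)) a b) -
              ∑ b, Dl (KK (D.G q)) a b := by
            rw [Finset.mul_sum, ← Finset.sum_sub_distrib]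
            rfl
        _ = 0 := by rw [h1, h2, mul_zero, sub_zero])
    (fun c a b => by
      rw [Matrix.smul_apply, Matrix.smul_apply, dl_symm (dk_symm hs c) a b])
    (fun c a => by
      have h1 := dl_row (dK (D.G q) c) a
      calc ∑ b, (τ • Dl (dK (D.G q) c)) a b = τ * ∑ b, Dl (dK (D.G q) c) a b := by
            rw [Finset.mul_sum]
            rfl
        _ = 0 := by rw [h1, mul_zero])
    hSs hSp hSr
    (fun f => by
      rw [hδ']
      exact (hwf f).1)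
    hnoise hsmall
    (by
      rw [← hU5]
      exact hGoo.h5)
  have hHJ' : HJ D.U5 q (D.U5 q) g' l' := by
    rw [hU5]
    exact hHJ
  refine ⟨hHJ'.sm, ?_⟩
  rw [hHJ'.ge]
  rw [← hU5] at hl'
  refine hl'.trans ?_
  have hU0 : 0 ≤ D.U5 q := (hNnu d M D c₁ C₁ c₀ k₀ q hc₁ hAdm (by rw [← hκ]; exact hκ0)).2.2.2.2
  have hcard : (Fintype.card (Tor d M) : ℝ) = (M : ℝ) ^ d := by
    rw [Fintype.card_fun, ZMod.card, Fintype.card_fin]
    push_cast
    rfl
  rw [hcard]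
  obtain ⟨aN, haN⟩ : ∃ aN, aN = D.aN := ⟨_, rfl⟩
  have hp0 : (0 : ℝ) < D.p := by exact_mod_cast (by omega : 0 < D.p)
  have hp1 : (1 : ℝ) ≤ D.p := by exact_mod_cast (by omega : 1 ≤ D.p)
  have haNge : D.p * D.δ + D.p ^ 2 * (D.N * D.w + D.δ ^ 2 + D.π₀ / D.η) ≤ aN := by
    rw [haN]
    have hN0 : 0 < D.N := by linarith
    have hL0 : 0 < D.L₀ := by linarith
    have hε0 : 0 < D.ε₁ := by linarith
    have he0' : 0 ≤ D.e₀ - 1 := by linarith
    have h1 : 0 ≤ D.j * (D.δ + Real.sqrt D.ch / D.δ + D.δ / D.ε₁) := by positivity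
    have h2 : 0 ≤ (D.j : ℝ) ^ 2 * (D.ch / D.δ ^ 2 + (D.N * D.w + D.δ ^ 2) / D.ε₁ ^ 2 +
        1 / Real.sqrt D.L₀ + D.ε₁ + (D.e₀ - 1)) := by
      have hch : 0 ≤ D.ch := by
        unfold Dat.ch
        positivity
      positivity
    unfold Dat.aN
    linarith
  have hN0 : 0 < D.N := by linarith
  have hA1 : (D.p : ℝ) ^ 2 * ν ≤ 2 * K * C₀ * aN / κ := by
    have h1 : ν ≤ 2 * K * C₀ / κ * (D.N * D.w + D.δ ^ 2 + D.π₀ / D.η) := by
      have e1 : ν = 2 * K / κ * (D.N * κ + D.δ ^ 2) + K * C₀ / κ * (D.π₀ / κ) := by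
        rw [hν]
        field_simp
      have h2 : 2 * K / κ * (D.N * κ + D.δ ^ 2) ≤ 2 * K * C₀ / κ * (D.N * D.w + D.δ ^ 2) := by
        apply mul_le_mul
        · apply div_le_div_of_nonneg_right _ hκ0.le
          exact le_mul_of_one_le_right (by positivity) hC₀
        · have := mul_le_mul_of_nonneg_left hκw hN0.le
          linarith
        · positivity
        · positivity
      have h3 : K * C₀ / κ * (D.π₀ / κ) ≤ 2 * K * C₀ / κ * (D.π₀ / D.η) := by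
        apply mul_le_mul
        · apply div_le_div_of_nonneg_right _ hκ0.le
          have : 0 ≤ K * C₀ := by positivity
          linarith
        · exact div_le_div_of_nonneg_left hπ0 hη0 hηκ
        · positivity
        · positivity
      rw [e1]
      calc 2 * K / κ * (D.N * κ + D.δ ^ 2) + K * C₀ / κ * (D.π₀ / κ) ≤
          2 * K * C₀ / κ * (D.N * D.w + D.δ ^ 2) + 2 * K * C₀ / κ * (D.π₀ / D.η) := by linarith
        _ = _ := by ring
    have h4 : (D.p : ℝ) ^ 2 * ν ≤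
        (D.p : ℝ) ^ 2 * (2 * K * C₀ / κ * (D.N * D.w + D.δ ^ 2 + D.π₀ / D.η)) :=
      mul_le_mul_of_nonneg_left h1 (by positivity)
    have h5 : (D.p : ℝ) ^ 2 * (D.N * D.w + D.δ ^ 2 + D.π₀ / D.η) ≤ aN := by
      have : 0 ≤ D.p * D.δ := by positivity
      linarith
    have h6 := mul_le_mul_of_nonneg_left h5 (show 0 ≤ 2 * K * C₀ / κ by positivity)
    calc (D.p : ℝ) ^ 2 * ν ≤
        (D.p : ℝ) ^ 2 * (2 * K * C₀ / κ * (D.N * D.w + D.δ ^ 2 + D.π₀ / D.η)) := h4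
      _ = 2 * K * C₀ / κ * ((D.p : ℝ) ^ 2 * (D.N * D.w + D.δ ^ 2 + D.π₀ / D.η)) := by ring
      _ ≤ 2 * K * C₀ / κ * aN := h6
      _ = _ := by ring
  have hA2 : D.p * ν ≤ 2 * K * C₀ * aN / κ := by
    refine le_trans ?_ hA1
    apply mul_le_mul_of_nonneg_right _ hν0
    nlinarith
  have hτi : 1 / τ ≤ C₀ / κ := by
    rw [div_le_div_iff₀ hτ0 hκ0]
    linarith
  have hA3 : D.p * (2 * δ' / τ) ≤ 2 * K * C₀ * aN / κ := by
    have h1 : D.p * D.δ ≤ aN := by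
      have : 0 ≤ (D.p : ℝ) ^ 2 * (D.N * D.w + D.δ ^ 2 + D.π₀ / D.η) := by positivity
      linarith
    calc D.p * (2 * δ' / τ) = 2 * K * (D.p * D.δ) * (1 / τ) := by
          rw [hδ']
          ring
      _ ≤ 2 * K * aN * (C₀ / κ) := by
          apply mul_le_mul _ hτi (by positivity)
          · have : 0 ≤ D.p * D.δ := by positivity
            have : 0 ≤ aN := by linarith
            positivity
          · exact mul_le_mul_of_nonneg_left h1 (by positivity)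
      _ = _ := by ring
  have hν2 : (D.p : ℝ) ^ 2 * ν * D.e₀ ≤ 4 * K * C₀ * aN / κ := by
    have h1 : 0 ≤ (D.p : ℝ) ^ 2 * ν := by positivity
    calc (D.p : ℝ) ^ 2 * ν * D.e₀ ≤ (D.p : ℝ) ^ 2 * ν * 2 := mul_le_mul_of_nonneg_left he02 h1
      _ ≤ 2 * K * C₀ * aN / κ * 2 := mul_le_mul_of_nonneg_right hA1 (by norm_num)
      _ = _ := by ring
  have hfac : D.p * (2 * δ' / τ + ν) + D.p ^ 2 * ν * D.e₀ ≤ 8 * K * C₀ * aN / κ := by
    have e : D.p * (2 * δ' / τ + ν) = D.p * (2 * δ' / τ) + D.p * ν := by ring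
    have e2 : 8 * K * C₀ * aN / κ = 2 * K * C₀ * aN / κ + 2 * K * C₀ * aN / κ +
        4 * K * C₀ * aN / κ := by ring
    rw [e, e2]
    linarith
  have hfac2 : D.p / τ + D.p ^ 2 * ν * D.e₀ ≤ 8 * K * C₀ * aN / κ + 8 * K * C₀ * D.p / κ := by
    have h1 : D.p / τ ≤ 8 * K * C₀ * D.p / κ := by
      calc (D.p : ℝ) / τ = D.p * (1 / τ) := by ring
        _ ≤ D.p * (C₀ / κ) := mul_le_mul_of_nonneg_left hτi hp0.le
        _ = C₀ * (D.p / κ) := by ring
        _ ≤ (8 * K * C₀) * (D.p / κ) := by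
            apply mul_le_mul_of_nonneg_right _ (by positivity)
            nlinarith
        _ = _ := by ring
    have h2 : 4 * K * C₀ * aN / κ ≤ 8 * K * C₀ * aN / κ := by
      apply div_le_div_of_nonneg_right _ hκ0.le
      have : 0 ≤ D.p * D.δ := by positivity
      have : 0 ≤ (D.p : ℝ) ^ 2 * (D.N * D.w + D.δ ^ 2 + D.π₀ / D.η) := by positivity
      have : 0 ≤ aN := by linarith
      have : 0 ≤ K * C₀ * aN := by positivity
      linarith
    linarith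
  obtain ⟨Z, hZ⟩ : ∃ Z, Z = (M : ℝ) ^ d * (1 / D.e₀) ^ D.p := ⟨_, rfl⟩
  have hZ0 : 0 ≤ Z := by
    have : 0 < D.e₀ := by linarith
    rw [hZ]
    positivity
  have e3 : (M : ℝ) ^ d * (1 / D.e₀) ^ D.p * (D.p / τ + D.p ^ 2 * ν * D.e₀) =
      (D.p / τ + D.p ^ 2 * ν * D.e₀) * Z := by
    rw [hZ]
    ring
  rw [← hZ, ← haN, hZ, e3, ← hZ]
  have h7 := mul_le_mul_of_nonneg_right hfac hU0
  have h8 := mul_le_mul_of_nonneg_right hfac2 hZ0
  calc (D.p * (2 * δ' / τ + ν) + D.p ^ 2 * ν * D.e₀) * D.U5 q +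
        (D.p / τ + D.p ^ 2 * ν * D.e₀) * Z ≤
      8 * K * C₀ * aN / κ * D.U5 q + (8 * K * C₀ * aN / κ + 8 * K * C₀ * D.p / κ) * Z := by
        linarith
    _ = _ := by ring

end Pool.Agent.LE.QF.H81
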